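import Pool.Agent.Helper78.JT.Goals
import Pool.Agent.Helper34.DT.DIG

/-!
# JT-CHN: the chain of samplers
-/

set_option autoImplicit false

namespace Pool.Agent.Helper42.JT

open Pool.Agent.Helper78.DT Pool.Agent.Helper78.JT
open scoped Classical

theorem pv_congr (R d : ℕ) (c c' : ℕ → ℕ) (x : ℕ) (h : ∀ i < d, c i = c' i) :
    pv R d c x = pv R d c' x := by
  unfold pv
  congr 1
  exact Finset.sum_congr rfl fun i hi => by rw [h i (Finset.mem_range.1 hi)]

theorem ch_congr (R d : ℕ → ℕ) (a : ℕ) (l : ℕ) : ∀ θ θ' : ℕ,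
    θ % Zl R d l = θ' % Zl R d l → ch R d θ a l = ch R d θ' a l := by
  induction l with
  | zero => intro θ θ' _; rfl
  | succ l ih =>
    intro θ θ' h
    have h1 : θ % Zl R d l = θ' % Zl R d l := by
      have e : Zl R d (l + 1) = Zl R d l * R l ^ d l := rfl
      rw [e] at h
      have h2 := congrArg (· % Zl R d l) h
      simpa [Nat.mod_mul_right_mod] using h2
    have h3 : ∀ i < d l, dg (R l) (θ / Zl R d l) i = dg (R l) (θ' / Zl R d l) i := by
      intro i hi
      have e : Zl R d (l + 1) = Zl R d l * R l ^ d l := rfl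
      rw [e] at h
      have h2 : θ / Zl R d l % R l ^ d l = θ' / Zl R d l % R l ^ d l := by
        rw [← Nat.mod_mul_right_div_self, ← Nat.mod_mul_right_div_self, h]
      unfold dg
      rw [← Pool.Agent.Helper34.DT.dig_mod (R l) (d l) (θ / Zl R d l) i hi,
        ← Pool.Agent.Helper34.DT.dig_mod (R l) (d l) (θ' / Zl R d l) i hi, h2]
    show pv (R l) (d l) (dg (R l) (θ / Zl R d l)) (ch R d θ a l) =
      pv (R l) (d l) (dg (R l) (θ' / Zl R d l)) (ch R d θ' a l)
    rw [ih θ θ' h1]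
    exact pv_congr _ _ _ _ _ h3

/-- The seeds as pairs. -/
noncomputable def eqv (Z R d : ℕ) : Fin (Z * R ^ d) ≃ Fin Z × (Fin d → Fin R) :=
  (finCongr (by ring : Z * R ^ d = R ^ d * Z)).trans
    (finProdFinEquiv.symm.trans ((Equiv.prodComm _ _).trans
      (Equiv.prodCongr (Equiv.refl _) finFunctionFinEquiv.symm)))

theorem eqv1 (Z R d : ℕ) (θ : Fin (Z * R ^ d)) : (((eqv Z R d θ).1 : Fin Z) : ℕ) = (θ : ℕ) % Z := by
  simp [eqv]

theorem eqv2 (Z R d : ℕ) (θ : Fin (Z * R ^ d)) (j : Fin d) :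
    (((eqv Z R d θ).2 j : Fin R) : ℕ) = (θ : ℕ) / Z / R ^ (j : ℕ) % R := by
  simp [eqv, finFunctionFinEquiv_symm_apply_val]

theorem ch_succ (R d : ℕ → ℕ) (a l : ℕ) (θ : Fin (Zl R d l * R l ^ d l)) :
    ch R d θ a (l + 1) = pv (R l) (d l) (ext (eqv (Zl R d l) (R l) (d l) θ).2)
      (ch R d ((eqv (Zl R d l) (R l) (d l) θ).1 : Fin (Zl R d l)) a l) := by
  show pv (R l) (d l) (dg (R l) (θ / Zl R d l)) (ch R d θ a l) = _
  rw [ch_congr R d a l θ ((eqv (Zl R d l) (R l) (d l) θ).1 : Fin (Zl R d l))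
    (by rw [eqv1, Nat.mod_mod])]
  apply pv_congr
  intro i hi
  rw [ext, dif_pos hi, eqv2, dg]

theorem main (hS : SmpStmt) (R d k M : ℕ → ℕ) (q : ℕ) (δ ε : ℝ) (hq : 0 < q) (hδ : 0 < δ)
    (hε : 0 ≤ ε) (hM0 : M 0 = q) (hM : ∀ j, M (j + 1) = R j) (l : ℕ) :
    (∀ j < l, (R j).Prime ∧ M j ≤ R j ∧ 2 * k j ≤ d j ∧
      ((k j : ℝ) ^ 2 / (M j * δ ^ 2)) ^ k j ≤ ε) →
    ∀ (ι : Type) (I : Finset ι) (φ : ι → ℕ → Prop),
    pr (fun θ : Fin (Zl R d l) => ∃ i ∈ I, l * δ <
      |pr (fun a : Fin q => φ i (ch R d θ a l)) - pr (fun y : Fin (M l) => φ i y)|) ≤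
    l * (I.card * ε) := by
  induction l with
  | zero =>
    intro _ ι I φ
    subst hM0
    refine av_le_of_le (by positivity) fun θ => ?_
    rw [if_neg]
    · positivity
    · rintro ⟨i, -, hi⟩
      simp [ch] at hi
  | succ l ih =>
    intro hj ι I φ
    have ih' := ih fun j h => hj j (by omega)
    obtain ⟨hR, hMR, hkd, hke⟩ := hj l (by omega)
    have hMpos : 0 < M l := by
      cases l with
      | zero => rw [hM0]; exact hq
      | succ l => rw [hM l]; exact (hj l (by omega)).1.pos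
    have hsmp := hS (R l) (M l) (d l) (k l) δ hR hMpos hMR hkd hδ ι I φ
    have hIe : (0 : ℝ) ≤ I.card * ε := by positivity
    have hsmp' : pr (fun θ : Fin (d l) → Fin (R l) => ∃ i ∈ I,
        δ < |pr (fun a : Fin (M l) => φ i (pv (R l) (d l) (ext θ) a)) -
          pr (fun y : Fin (R l) => φ i y)|) ≤ I.card * ε :=
      hsmp.trans (mul_le_mul_of_nonneg_left hke (Nat.cast_nonneg _))
    have key : pr (fun θ : Fin (Zl R d (l + 1)) => ∃ i ∈ I, ((l + 1 : ℕ) : ℝ) * δ <
        |pr (fun a : Fin q => φ i (ch R d θ a (l + 1))) - pr (fun y : Fin (M (l + 1)) => φ i y)|) =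
        pr (fun p : Fin (Zl R d l) × (Fin (d l) → Fin (R l)) => ∃ i ∈ I, ((l + 1 : ℕ) : ℝ) * δ <
        |pr (fun a : Fin q => φ i (pv (R l) (d l) (ext p.2) (ch R d p.1 a l))) -
          pr (fun y : Fin (R l) => φ i y)|) := by
      rw [← pr_equiv (eqv (Zl R d l) (R l) (d l))]
      rw [hM l]
      apply pr_congr
      intro θ
      have h1 : ∀ i, pr (fun a : Fin q => φ i (ch R d θ a (l + 1))) =
          pr (fun a : Fin q => φ i (pv (R l) (d l) (ext (eqv (Zl R d l) (R l) (d l) θ).2)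
            (ch R d ((eqv (Zl R d l) (R l) (d l) θ).1 : Fin (Zl R d l)) a l))) := by
        intro i
        apply pr_congr
        intro a
        rw [ch_succ]
      simp only [h1]
    rw [key]
    refine (pr_le_add_of_imp (E' := fun p : Fin (Zl R d l) × (Fin (d l) → Fin (R l)) =>
        ∃ i ∈ I, δ < |pr (fun a : Fin (M l) => φ i (pv (R l) (d l) (ext p.2) a)) -
          pr (fun y : Fin (R l) => φ i y)|)
      (B := fun p : Fin (Zl R d l) × (Fin (d l) → Fin (R l)) =>
        ∃ i ∈ I, l * δ < |pr (fun a : Fin q => φ i (pv (R l) (d l) (ext p.2) (ch R d p.1 a l))) -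
          pr (fun a : Fin (M l) => φ i (pv (R l) (d l) (ext p.2) a))|) ?_).trans ?_
    · rintro p ⟨i, hi, h⟩
      by_cases h1 : δ < |pr (fun a : Fin (M l) => φ i (pv (R l) (d l) (ext p.2) a)) -
          pr (fun y : Fin (R l) => φ i y)|
      · exact Or.inl ⟨i, hi, h1⟩
      · refine Or.inr ⟨i, hi, ?_⟩
        have h2 := abs_sub_le (pr (fun a : Fin q => φ i (pv (R l) (d l) (ext p.2) (ch R d p.1 a l))))
          (pr (fun a : Fin (M l) => φ i (pv (R l) (d l) (ext p.2) a)))
          (pr (fun y : Fin (R l) => φ i y))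
        push_cast at h
        push Not at h1
        nlinarith
    · have e1 : pr (fun p : Fin (Zl R d l) × (Fin (d l) → Fin (R l)) =>
          ∃ i ∈ I, δ < |pr (fun a : Fin (M l) => φ i (pv (R l) (d l) (ext p.2) a)) -
            pr (fun y : Fin (R l) => φ i y)|) ≤ I.card * ε := by
        unfold pr at hsmp' ⊢
        rw [av_prod]
        exact av_le_of_le hIe fun _ => hsmp'
      have e2 : pr (fun p : Fin (Zl R d l) × (Fin (d l) → Fin (R l)) =>
          ∃ i ∈ I, l * δ < |pr (fun a : Fin q => φ i (pv (R l) (d l) (ext p.2) (ch R d p.1 a l))) -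
            pr (fun a : Fin (M l) => φ i (pv (R l) (d l) (ext p.2) a))|) ≤ l * (I.card * ε) := by
        rw [pr_eq_av, av_prod, av_comm]
        refine av_le_of_le (by positivity) fun θ2 => ?_
        exact ih' ι I fun i w => φ i (pv (R l) (d l) (ext θ2) w)
      push_cast
      linarith

theorem chn (hS : SmpStmt) : ChnStmt := by
  intro R d k M q l δ ε hq hδ hε hM0 hM hj ι I φ
  have h := main hS R d k M q δ ε hq hδ hε hM0 hM (l + 1) (fun j h => hj j (by omega)) ι I φ
  rw [hM l] at h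
  push_cast at h
  exact h

end Pool.Agent.Helper42.JT
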